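import Mathlib

namespace Pool.Agent.Results.MP_abda90_al.TorusDisproof

/-- The involution of the real group algebra: `(∑ a_γ γ)* = ∑ a_γ γ⁻¹`. -/
noncomputable def conj {Γ : Type} [Group Γ] (x : MonoidAlgebra ℝ Γ) : MonoidAlgebra ℝ Γ :=
  MonoidAlgebra.mapDomain (fun γ => γ⁻¹) x

/-- The adjoint of a matrix over the group algebra: the transpose, with the involution applied
to every entry. -/
noncomputable def adj {Γ : Type} [Group Γ] {m k : ℕ}
    (M : Matrix (Fin m) (Fin k) (MonoidAlgebra ℝ Γ)) :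
    Matrix (Fin k) (Fin m) (MonoidAlgebra ℝ Γ) :=
  Matrix.of fun i j => conj (M j i)

/-- The group element as an element of the group algebra. -/
noncomputable def el {Γ : Type} [Group Γ] (γ : Γ) : MonoidAlgebra ℝ Γ := MonoidAlgebra.single γ 1

/-- The Fox derivative with respect to the `j`-th generator of a word in the generators
`g 0, …, g (m-1)` of `Γ` and their inverses, with values in the group algebra: the letter
`(i, true)` stands for `g i` and `(i, false)` for its inverse. It satisfies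
`∂(x w) = ∂x + x ∂w`, `∂(g i) = δ_{ij}` and `∂((g i)⁻¹) = - δ_{ij} (g i)⁻¹`. -/
noncomputable def fox {Γ : Type} [Group Γ] {m : ℕ} (g : Fin m → Γ) (j : Fin m) :
    List (Fin m × Bool) → MonoidAlgebra ℝ Γ
  | [] => 0
  | (i, true) :: w => (if i = j then 1 else 0) + el (g i) * fox g j w
  | (i, false) :: w => (if i = j then -el (g i)⁻¹ else 0) + el (g i)⁻¹ * fox g j w

/-- The boundary matrix `d₀` of the presentation complex: the column with entries `1 - g i`. -/
noncomputable def d0 {Γ : Type} [Group Γ] {m : ℕ} (g : Fin m → Γ) :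
    Matrix (Fin m) (Fin 1) (MonoidAlgebra ℝ Γ) :=
  Matrix.of fun i _ => 1 - el (g i)

/-- The boundary matrix `d₁` of the presentation complex: the matrix of Fox derivatives of the
relators. -/
noncomputable def d1 {Γ : Type} [Group Γ] {m k : ℕ} (g : Fin m → Γ)
    (rel : Fin k → List (Fin m × Bool)) : Matrix (Fin k) (Fin m) (MonoidAlgebra ℝ Γ) :=
  Matrix.of fun r j => fox g j (rel r)

/-- The group `ℤ²`, written multiplicatively. -/
abbrev Z2 : Type := Multiplicative ℤ × Multiplicative ℤ

/-- The two standard generators `s, t` of `ℤ²`. -/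
def gens : Fin 2 → Z2 := ![(Multiplicative.ofAdd 1, 1), (1, Multiplicative.ofAdd 1)]

/-- The only relator of the standard presentation `⟨s, t | s t s⁻¹ t⁻¹⟩` of `ℤ²`. -/
def rels : Fin 1 → List (Fin 2 × Bool) := fun _ => [(0, true), (1, true), (0, false), (1, false)]

section

variable {Γ : Type} [Group Γ]

lemma conj_add (x y : MonoidAlgebra ℝ Γ) : conj (x + y) = conj x + conj y :=
  MonoidAlgebra.mapDomain_add _ _ _

lemma conj_el (γ : Γ) : conj (el γ) = el γ⁻¹ := MonoidAlgebra.mapDomain_single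

lemma conj_one : conj (1 : MonoidAlgebra ℝ Γ) = 1 := by
  have := conj_el (1 : Γ)
  rw [inv_one] at this
  exact this

lemma conj_sub (x y : MonoidAlgebra ℝ Γ) : conj (x - y) = conj x - conj y := by
  rw [eq_sub_iff_add_eq, ← conj_add, sub_add_cancel]

lemma el_mul (a b : Γ) : el a * el b = el (a * b) := by
  simp [el, MonoidAlgebra.single_mul_single]

lemma el_one : el (1 : Γ) = 1 := rfl

/-- The augmentation. -/
noncomputable def aug : MonoidAlgebra ℝ Γ →ₐ[ℝ] ℝ := MonoidAlgebra.lift ℝ ℝ Γ 1

lemma aug_el (γ : Γ) : aug (el γ) = 1 := by simp [aug, el]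

lemma aug_conj (x : MonoidAlgebra ℝ Γ) : aug (conj x) = aug x := by
  induction x using MonoidAlgebra.induction_on with
  | of γ =>
    change aug (conj (el γ)) = aug (el γ)
    rw [conj_el, aug_el, aug_el]
  | add f g hf hg => rw [conj_add, map_add, map_add, hf, hg]
  | smul r f hf =>
    have : conj (r • f) = r • conj f := by
      simp [conj, MonoidAlgebra.mapDomain_smul]
    rw [this, map_smul, map_smul, hf]

end

lemma st : gens 0 * gens 1 = gens 1 * gens 0 := mul_comm _ _

/-- The matrix `[[0, s], [-t, 0]]`. -/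
noncomputable def a : Matrix (Fin 2) (Fin 2) (MonoidAlgebra ℝ Z2) :=
  !![0, el (gens 0); -el (gens 1), 0]

lemma d1_0 : d1 gens rels 0 0 = 1 - el (gens 1) := by
  have h : gens 0 * (gens 1 * (gens 0)⁻¹) = gens 1 := by
    rw [mul_comm (gens 1), mul_inv_cancel_left]
  simp [d1, rels, fox, el_mul, h, ← sub_eq_add_neg]

lemma d1_1 : d1 gens rels 0 1 = el (gens 0) - 1 := by
  have h : gens 0 * (gens 1 * ((gens 0)⁻¹ * (gens 1)⁻¹)) = 1 := by
    rw [mul_comm (gens 0)⁻¹, mul_inv_cancel_left, mul_inv_cancel]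
  simp [d1, rels, fox, mul_add, el_mul, h, el_one, ← sub_eq_add_neg]

lemma ker : adj (d0 gens) * a * d0 gens = 0 := by
  have hs : el (gens 0)⁻¹ * el (gens 0) = 1 := by rw [el_mul, inv_mul_cancel, el_one]
  have ht : el (gens 1)⁻¹ * el (gens 1) = 1 := by rw [el_mul, inv_mul_cancel, el_one]
  refine Matrix.ext fun i j => ?_
  fin_cases i
  fin_cases j
  simp only [Fin.zero_eta, Matrix.mul_apply, Fin.sum_univ_two, adj, d0, a, Matrix.of_apply,
    conj_sub, conj_one, conj_el, Matrix.cons_val', Matrix.cons_val_zero, Matrix.cons_val_one,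
    Matrix.zero_apply]
  simp
  linear_combination (el (gens 1) - 1) * hs + (1 - el (gens 0)) * ht

/-- Every entry of a split-conjugation matrix has augmentation zero. -/
lemma aug_sc (x : Matrix (Fin 1) (Fin 2) (MonoidAlgebra ℝ Z2))
    (y : Matrix (Fin 2) (Fin 1) (MonoidAlgebra ℝ Z2)) (i j : Fin 2) :
    aug ((adj (d1 gens rels) * x + y * d1 gens rels) i j) = 0 := by
  have h : ∀ j : Fin 2, aug (d1 gens rels 0 j) = 0 := by
    intro j
    fin_cases j
    · change aug (d1 gens rels 0 0) = 0
      rw [d1_0, map_sub, map_one, aug_el, sub_self]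
    · change aug (d1 gens rels 0 1) = 0
      rw [d1_1, map_sub, map_one, aug_el, sub_self]
  rw [Matrix.add_apply, Matrix.mul_apply, Matrix.mul_apply, map_add, map_sum, map_sum]
  simp [adj, aug_conj, h]

/-- For the torus, that is, the presentation complex of `ℤ² = ⟨s, t | s t s⁻¹ t⁻¹⟩`, there is a
`2 × 2` matrix `a` over the real group algebra with `d₀* a d₀ = 0` which is not of the form
`d₁* x + y d₁`. -/
theorem result : ∃ a : Matrix (Fin 2) (Fin 2) (MonoidAlgebra ℝ Z2),
    adj (d0 gens) * a * d0 gens = 0 ∧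
    ¬ ∃ (x : Matrix (Fin 1) (Fin 2) (MonoidAlgebra ℝ Z2))
        (y : Matrix (Fin 2) (Fin 1) (MonoidAlgebra ℝ Z2)),
      a = adj (d1 gens rels) * x + y * d1 gens rels := by
  refine ⟨a, ker, ?_⟩
  rintro ⟨x, y, h⟩
  have h1 := aug_sc x y 0 1
  rw [← h] at h1
  simp [a, aug_el] at h1

end Pool.Agent.Results.MP_abda90_al.TorusDisproof
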